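import Pool.Agent.U881.HB.K33
import Pool.Agent.W315.MD.Final

/-!
# Perfect-matching covers of planar r-graphs: smallest graphs without a (t, r)-PM

* `RGraph r p`: `p` is the multiplicity function of an `r`-graph, that is, a loopless `r`-regular
  multigraph with at least `r` edges leaving every odd vertex set; `gr p`: its underlying simple graph;
  `Cover t r p`: it has `t r` perfect matchings which cover every edge exactly `t` times (for the
  multiplicity function: `t p u v` of the matchings join `u` and `v`), that is, a `(t, r)`-PM.
* `MGraph r ends`, `MCover t r ends`: the same for multigraphs on `Fin n` with edges `Fin m`.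
* `Minor H G`: `H` is a minor of `G`; `completeBipartiteGraph (Fin 3) (Fin 3)` is `K₃,₃`, which is not a
  minor of a planar graph.
* `pent τ`: two disjoint pentagons `a₀ … a₄`, `b₀ … b₄` and the edges `aₖ b_{τ k}`, `k ≤ 3`; for `Dih τ`
  (`τ` is a symmetry of the square `0123`) this is a cube in which one edge of a face and one edge of the
  opposite face are subdivided.  For the other `τ` it contains `K₃,₃`.
* `Sum3 K` (sums of order at most three), `FourHubs`, `Piece`: see the hand-ins `SumsOfOrderThree` and
  `FourHubs` of `MP_2d6e82_co`; `Piece7`: no dihedral linked pentagons, or `FourHubs`, or `Piece`.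
* `NoTight r p`: if `r` edges leave an odd set then it or its complement has one vertex; `Brick`:
  deleting any two vertices leaves a connected graph with a perfect matching; `Sep3`: three vertices
  separate the graph into two parts with at least two vertices each.
-/

set_option autoImplicit false

namespace Pool.Agent.Results.MP_fe5cb4_co.SubdividedCubes

open Finset H76FC H76TX H76TY H76TW Pool.Agent.W315.LB Pool.Agent.U881.HB

theorem result :
    -- (1) smallest graphs without a (t, r)-PM
    (∀ (V : Type) [Fintype V] [DecidableEq V] (t r : ℕ) (p : V → V → ℕ), RGraph r p →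
      ¬ Minor (completeBipartiteGraph (Fin 3) (Fin 3)) (gr p) → ¬ Cover t r p →
      (∀ (W : Type) [Fintype W] [DecidableEq W] (q : W → W → ℕ),
        Fintype.card W < Fintype.card V → RGraph r q →
        ¬ Minor (completeBipartiteGraph (Fin 3) (Fin 3)) (gr q) → Cover t r q) →
      NoTight r p ∧ Brick (gr p) ∧ 14 ≤ Fintype.card V ∧ ¬ Sep3 (gr p) ∧
        ∃ τ, Dih τ ∧ Minor (pent τ) (gr p)) ∧
    -- (2) graphs with a (t, r)-PM for all t
    ∀ (t r n m : ℕ) (ends : Fin m → Sym2 (Fin n)), MGraph r ends →
      ¬ Minor (completeBipartiteGraph (Fin 3) (Fin 3)) (SimpleGraph.fromEdgeSet (Set.range ends)) →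
      Sum3 Piece7 (Fin n) (SimpleGraph.fromEdgeSet (Set.range ends)) → MCover t r ends := by
  refine ⟨?_, ?_⟩
  · intro V _ _ t r p hp hF hno hmin
    obtain ⟨h1, h2, h3, h4⟩ := smallestK t (completeBipartiteGraph (Fin 3) (Fin 3))
      (fun _ _ h => pet_to_k33 h) hp hF hno hmin
    refine ⟨h1, h2, h3, h4, ?_⟩
    by_contra hcon
    push Not at hcon
    exact hno (cmul t (cover_k33 (gr p) hF (Sum3.base _ _ (Or.inl hcon)) _ V rfl r p hp
      (minor_refl _)))
  · intro t r n m ends hG hP hS
    obtain ⟨hp, _⟩ := toR r n m ends hG
    rw [coverIff t r n m ends hG]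
    exact cmul t (cover_k33 _ hP hS _ _ rfl r _ hp gr_minor)

end Pool.Agent.Results.MP_fe5cb4_co.SubdividedCubes
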